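import Mathlib

namespace Pool.Agent.Results.MP_7ae2b6_co.Three

open Finset

/-- Every vertex lies, for every colour, in a monochromatic clique of that colour with exactly
`k` vertices. -/
def Enabling {r n : ℕ} (k : ℕ) (c : Sym2 (Fin n) → Fin r) : Prop :=
  ∀ v i, ∃ S : Finset (Fin n), v ∈ S ∧ S.card = k ∧ ∀ a ∈ S, ∀ b ∈ S, a ≠ b → c s(a, b) = i

/-- The least positive `n` such that some `r`-colouring of the edges of `K_n` is `k`-enabling. -/
noncomputable def nr (r k : ℕ) : ℕ := sInf {n | 0 < n ∧ ∃ c : Sym2 (Fin n) → Fin r, Enabling k c}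

def M : Fin 11 → Fin 11 → Fin 3 :=
  ![![0, 0, 1, 0, 0, 2, 0, 2, 1, 0, 0], ![0, 0, 0, 1, 2, 0, 2, 0, 0, 1, 0],
    ![1, 0, 1, 0, 2, 1, 1, 0, 1, 2, 1], ![0, 1, 0, 1, 1, 2, 0, 1, 0, 1, 2],
    ![0, 2, 2, 1, 2, 0, 2, 1, 2, 2, 0], ![2, 0, 1, 2, 0, 2, 1, 2, 0, 0, 2],
    ![0, 2, 1, 0, 2, 1, 0, 0, 1, 2, 0], ![2, 0, 0, 1, 1, 2, 0, 0, 0, 1, 2],
    ![1, 0, 1, 0, 2, 0, 1, 0, 0, 2, 1], ![0, 1, 2, 1, 2, 0, 2, 1, 2, 0, 0],
    ![0, 0, 1, 2, 0, 2, 0, 2, 1, 0, 0]]

def T : Fin 11 → Fin 3 → Fin 6 × Fin 5 × Option (Fin 5) :=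
  ![![(0, 0, some 4), (2, 2, none), (5, 1, none)], ![(1, 1, some 2), (3, 3, none), (4, 0, none)],
    ![(1, 1, none), (2, 0, some 2), (4, 3, none)], ![(0, 0, none), (3, 1, some 3), (5, 4, none)],
    ![(0, 4, none), (3, 1, none), (4, 0, some 3)], ![(1, 2, none), (2, 0, none), (5, 1, some 4)],
    ![(0, 0, some 4), (2, 0, some 2), (4, 0, some 3)],
    ![(1, 1, some 2), (3, 1, some 3), (5, 1, some 4)],
    ![(1, 1, some 2), (2, 0, some 2), (4, 3, none)],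
    ![(0, 4, none), (3, 1, some 3), (4, 0, some 3)],
    ![(0, 0, some 4), (2, 2, none), (5, 1, some 4)]]

def cl (y : Fin 6) : Fin 11 := ⟨y.1, by omega⟩
def cr (p : Fin 5) : Fin 11 := ⟨p.1 + 6, by omega⟩
def cw (a : Fin 11) (q : Option (Fin 5)) : Fin 11 := q.elim a cr

def cls {m : ℕ} : (Fin 6 × Fin m) ⊕ Fin 5 → Fin 11 := Sum.elim (fun x => cl x.1) cr

lemma symm : ∀ a b, M a b = M b a := by decide

lemma tab : ∀ a i, M (cl (T a i).1) (cl (T a i).1) = i ∧ M (cl (T a i).1) (cr (T a i).2.1) = i ∧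
    M (cl (T a i).1) (cw a (T a i).2.2) = i ∧ M (cr (T a i).2.1) (cw a (T a i).2.2) = i ∧
    cw a (T a i).2.2 ≠ cl (T a i).1 ∧ cw a (T a i).2.2 ≠ cr (T a i).2.1 ∧
    ((T a i).2.2 = none ∨ a = cl (T a i).1 ∨ a = cr (T a i).2.1 ∨ a = cw a (T a i).2.2) := by
  decide

lemma cl_inj : ∀ a b, cl a = cl b → a = b := by decide
lemma cr_inj : ∀ a b, cr a = cr b → a = b := by decide
lemma cl_cr : ∀ a b, cl a ≠ cr b := by decide

lemma clique (m : ℕ) (v : (Fin 6 × Fin m) ⊕ Fin 5) (i : Fin 3) :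
    ∃ S : Finset ((Fin 6 × Fin m) ⊕ Fin 5), v ∈ S ∧ S.card = m + 2 ∧
      ∀ a ∈ S, ∀ b ∈ S, a ≠ b → M (cls a) (cls b) = i := by
  obtain ⟨h1, h2, h3, h4, h5, h6, h7⟩ := tab (cls v) i
  generalize (T (cls v) i).1 = y at *
  generalize (T (cls v) i).2.1 = p at *
  generalize (T (cls v) i).2.2 = q at *
  have hw : cls (q.elim v Sum.inr) = cw (cls v) q := by cases q <;> rfl
  refine ⟨insert (q.elim v Sum.inr) (insert (Sum.inr p) (univ.image fun j => Sum.inl (y, j))),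
    ?_, ?_, ?_⟩
  · simp only [mem_insert, mem_image, mem_univ, true_and]
    rcases q with _ | q
    · exact Or.inl rfl
    · rcases v with ⟨x, j⟩ | x
      · rcases h7 with h | h | h | h
        · cases h
        · exact Or.inr (Or.inr ⟨j, by rw [cl_inj x y h]⟩)
        · exact absurd h (cl_cr _ _)
        · exact absurd h (cl_cr _ _)
      · rcases h7 with h | h | h | h
        · cases h
        · exact absurd h.symm (cl_cr _ _)
        · exact Or.inr (Or.inl (by rw [cr_inj _ _ h]))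
        · exact Or.inl (by rw [cr_inj _ _ h]; rfl)
  · rw [card_insert_of_notMem, card_insert_of_notMem, card_image_of_injective]
    · simp
    · intro a b e; simpa using e
    · simp
    · simp only [mem_insert, mem_image, mem_univ, true_and, not_or, not_exists]
      exact ⟨fun e => h6 (by rw [← hw, e]; rfl), fun j e => h5 (by rw [← hw, ← e]; rfl)⟩
  · intro a ha b hb hab
    simp only [mem_insert, mem_image, mem_univ, true_and] at ha hb
    rcases ha with rfl | rfl | ⟨j, rfl⟩ <;> rcases hb with rfl | rfl | ⟨l, rfl⟩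
    · exact absurd rfl hab
    · rw [hw, symm]; exact h4
    · rw [hw, symm]; exact h3
    · rw [hw]; exact h4
    · exact absurd rfl hab
    · rw [symm]; exact h2
    · rw [hw]; exact h3
    · exact h2
    · exact h1

lemma bound (k : ℕ) (hk : 2 ≤ k) : nr 3 k ≤ 6 * k - 7 := by
  obtain ⟨m, rfl⟩ : ∃ m, k = m + 2 := ⟨k - 2, by omega⟩
  let e : ((Fin 6 × Fin m) ⊕ Fin 5) ≃ Fin (6 * (m + 2) - 7) :=
    Fintype.equivFinOfCardEq (by simp; omega)
  refine Nat.sInf_le ⟨by omega, Sym2.lift ⟨fun a b => M (cls (e.symm a)) (cls (e.symm b)),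
    fun a b => symm _ _⟩, fun v i => ?_⟩
  obtain ⟨S, h1, h2, h3⟩ := clique m (e.symm v) i
  refine ⟨S.map e.toEmbedding, by simpa using h1, by simpa using h2, fun a ha b hb hab => ?_⟩
  exact h3 _ (by simpa using ha) _ (by simpa using hb) (fun h => hab (e.symm.injective h))

/-- For three colours `n_3(k) ≤ 6 k - 7 < 2 * 3 * (k - 1)` for all `k ≥ 2`, so Q1 fails. -/
theorem result : (∀ k, 2 ≤ k → nr 3 k ≤ 6 * k - 7) ∧
    ¬ ∀ r, 2 ≤ r → ∃ k0, r ≤ k0 ∧ ∀ k, k0 ≤ k → nr r k = 2 * r * (k - 1) := by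
  refine ⟨bound, fun h => ?_⟩
  obtain ⟨k0, h1, h2⟩ := h 3 (by omega)
  have := h2 k0 le_rfl
  have := bound k0 (by omega)
  omega

end Pool.Agent.Results.MP_7ae2b6_co.Three
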